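import Pool.Agent.helper54.MZ.Spec1

/-! # `LGE`: logarithms of `ψ l - b i` -/

set_option autoImplicit false

open Complex Metric Set Filter Topology MeasureTheory

noncomputable section

namespace MZS

open MPS

theorem LGE_log (g : ℂ → ℂ) (hg : DifferentiableOn ℂ g (ball 0 1))
    (h0 : ∀ u ∈ ball (0 : ℂ) 1, g u ≠ 0) :
    ∃ N : ℂ → ℂ, DifferentiableOn ℂ N (ball 0 1) ∧ ∀ u ∈ ball (0 : ℂ) 1, Complex.exp (N u) = g u := by
  have hz : (0 : ℂ) ∈ ball (0 : ℂ) 1 := mem_ball_self one_pos
  have hd : DifferentiableOn ℂ (fun u => deriv g u / g u) (ball 0 1) :=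
    (hg.deriv isOpen_ball).div hg h0
  obtain ⟨P, hP0, hP⟩ := hd.isExactOn_ball.with_val_at 0 (Complex.log (g 0))
  have hK : ∀ u ∈ ball (0 : ℂ) 1, HasDerivAt (fun u => g u * Complex.exp (-P u)) 0 u := by
    intro u hu
    have h1 : HasDerivAt g (deriv g u) u :=
      (hg.differentiableAt (isOpen_ball.mem_nhds hu)).hasDerivAt
    have h2 := h1.mul ((hP u hu).neg.cexp)
    have h3 := h0 u hu
    have h4 : g u * (deriv g u / g u) = deriv g u := mul_div_cancel₀ _ h3
    have h5 : deriv g u * Complex.exp (-P u) +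
        g u * (Complex.exp (-P u) * -(deriv g u / g u)) = 0 := by
      linear_combination (-Complex.exp (-P u)) * h4
    exact h5 ▸ h2
  have hc : ∀ u ∈ ball (0 : ℂ) 1, g u * Complex.exp (-P u) = 1 := by
    intro u hu
    have h1 := isOpen_ball.is_const_of_deriv_eq_zero (convex_ball (0 : ℂ) 1).isPreconnected
      (fun v hv => (hK v hv).differentiableAt.differentiableWithinAt)
      (fun v hv => (hK v hv).deriv) hu hz
    rw [h1, hP0, Complex.exp_neg, Complex.exp_log (h0 0 hz), mul_inv_cancel₀ (h0 0 hz)]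
  refine ⟨P, fun u hu => (hP u hu).differentiableAt.differentiableWithinAt, ?_⟩
  intro u hu
  have h1 := hc u hu
  rw [Complex.exp_neg, ← div_eq_mul_inv, div_eq_one_iff_eq (Complex.exp_ne_zero _)] at h1
  exact h1.symm

theorem LGE : LGE_stmt := by
  intro k _ b g ψ hb hPN i
  have hz : (0 : ℂ) ∈ ball (0 : ℂ) 1 := mem_ball_self one_pos
  have key : ∀ l, ∃ N : ℂ → ℂ, DifferentiableOn ℂ N (ball 0 1) ∧ ∀ u ∈ ball (0 : ℂ) 1, u ≠ 0 →
      (if l = i then u else 1) * Complex.exp (N u) = ψ l u - b i := by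
    intro l
    have hl := hPN l
    by_cases h : l = i
    · subst h
      obtain ⟨N, hN1, hN2⟩ := LGE_log (dslope (ψ l) 0)
        ((Complex.differentiableOn_dslope (isOpen_ball.mem_nhds hz)).2 hl.diff) (by
          intro u hu
          by_cases hu0 : u = 0
          · subst hu0
            rw [dslope_same]
            exact hl.der
          · intro h1
            have h2 := sub_smul_dslope (ψ l) 0 u
            rw [h1, smul_zero, hl.val] at h2
            exact hl.av u hu hu0 l (sub_eq_zero.1 h2.symm))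
      refine ⟨N, hN1, fun u hu _ => ?_⟩
      rw [if_pos rfl, hN2 u hu]
      have h2 := sub_smul_dslope (ψ l) 0 u
      rw [sub_zero, smul_eq_mul, hl.val] at h2
      exact h2
    · obtain ⟨N, hN1, hN2⟩ := LGE_log (fun u => ψ l u - b i) (hl.diff.sub_const _) (by
        intro u hu
        by_cases hu0 : u = 0
        · subst hu0
          rw [hl.val]
          exact sub_ne_zero.2 fun h' => h (hb h')
        · exact sub_ne_zero.2 (hl.av u hu hu0 i))
      refine ⟨N, hN1, fun u hu _ => ?_⟩
      rw [if_neg h, one_mul, hN2 u hu]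
  choose N hN1 hN2 using key
  refine ⟨N, hN1, ?_⟩
  intro l w hw
  have hu : Complex.exp w ∈ ball (0 : ℂ) 1 := by
    rw [mem_ball_zero_iff, Complex.norm_exp, Real.exp_lt_one_iff]
    have h1 : w.re < -0 := hw
    linarith
  have h1 := hN2 l _ hu (Complex.exp_ne_zero w)
  rw [hat, ← h1, Complex.exp_add, ee]
  split_ifs with h
  · rw [one_mul]
  · rw [zero_mul, Complex.exp_zero]

end MZS
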